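import Pool.Agent.Helper27.RK.GDI

set_option autoImplicit false

/-!
# Swarm RK (MP_cba12a_lc), part CM1
-/

namespace Pool.Agent.Helper27.RK

open Finset Pool.Agent.Helper92.RK

theorem pr_mono {n : ℕ} {E E' : (Fin n → Bool) → Prop} (h : ∀ x, E x → E' x) :
    pr E ≤ pr E' := by
  classical
  unfold pr
  refine div_le_div_of_nonneg_right ?_ (by positivity)
  have : (univ.filter E).card ≤ (univ.filter E').card := by
    refine card_le_card ?_
    intro x hx
    rw [mem_filter] at hx ⊢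
    exact ⟨hx.1, h x hx.2⟩
  exact_mod_cast this

theorem dep_sat {n : ℕ} (T : Tm n) : Dep (Sat T) (vr T) := by
  intro x y h
  have h' : ∀ l ∈ T, x l.1 = y l.1 := fun l hl => h l.1 (mem_vr.2 ⟨l, hl, rfl⟩)
  constructor
  · intro hx l hl
    rw [← h' l hl]; exact hx l hl
  · intro hy l hl
    rw [h' l hl]; exact hy l hl

theorem dep_avoid {n : ℕ} {ι : Type} (s : Finset ι) (R : ι → Tm n) (A : Finset (Fin n))
    (h : ∀ b ∈ s, vr (R b) ⊆ A) : Dep (Avoid s R) A := by
  intro x y hxy
  unfold Avoid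
  refine forall₂_congr fun b hb => not_congr ?_
  exact dep_sat (R b) x y fun i hi => hxy i (h b hb hi)

/-- Part CM1. -/
theorem cm1 (hI : S_IND) (hS : S_SAT) (hF : S_FIN) : S_CM1 := by
  classical
  intro k δ hδ
  refine ⟨(max k 1 : ℕ) * (-Real.log δ), ?_⟩
  intro n F T hk hCon hT hN
  have hConT := hCon T hT
  have hpr : δ ≤ pr (Avoid (EE F T) (out T)) := by
    have h1 : pr (fun x => Sat T x ∧ ∀ b ∈ F, b.card < T.card → ¬ Sat b x) ≤
        pr (fun x => Sat T x ∧ Avoid (EE F T) (out T) x) := by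
      refine pr_mono fun x hx => ⟨hx.1, ?_⟩
      intro b hb hsat
      unfold EE at hb
      rw [mem_filter] at hb
      obtain ⟨hbF, hb1, hb2⟩ := hb
      refine hx.2 b hbF hb1 ?_
      intro l hl
      by_cases hlT : l.1 ∈ vr T
      · obtain ⟨m, hm, hml⟩ := mem_vr.1 hlT
        have : l = m := hb2 l (mem_union_left _ hl) m (mem_union_right _ hm) hml.symm
        rw [this]
        exact hx.1 m hm
      · exact hsat l (by unfold out; exact mem_filter.2 ⟨hl, hlT⟩)
    have h2 : pr (fun x => Sat T x ∧ Avoid (EE F T) (out T) x) =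
        pr (Sat T) * pr (Avoid (EE F T) (out T)) := by
      refine hI n _ _ (vr T) (vr T)ᶜ disjoint_compl_right (dep_sat T) ?_
      refine dep_avoid _ _ _ ?_
      intro b _ i hi
      rw [mem_compl]
      obtain ⟨l, hl, rfl⟩ := mem_vr.1 hi
      unfold out at hl
      exact (mem_filter.1 hl).2
    rw [hS n T hConT] at h2
    have h3 : δ * (1 / 2 : ℝ) ^ T.card ≤ (1 / 2 : ℝ) ^ T.card * pr (Avoid (EE F T) (out T)) := by
      rw [← h2]
      exact hN.trans h1
    rw [mul_comm] at h3
    exact le_of_mul_le_mul_left h3 (by positivity)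
  refine ⟨?_, hpr⟩
  have h1 := hF n (max k 1) (Tm n) (EE F T) (out T) (le_max_right _ _) (by
    intro b hb l hl l' hl' h
    unfold EE at hb
    unfold out at hl hl'
    exact hCon b (mem_filter.1 hb).1 l (mem_filter.1 hl).1 l' (mem_filter.1 hl').1 h) (by
    intro i
    refine le_trans (card_le_card ?_) ((hk i).trans (le_max_left _ _))
    intro b hb
    rw [mem_filter] at hb ⊢
    unfold EE at hb
    refine ⟨(mem_filter.1 hb.1).1, ?_⟩
    obtain ⟨l, hl, rfl⟩ := mem_vr.1 hb.2
    unfold out at hl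
    exact mem_vr.2 ⟨l, (mem_filter.1 hl).1, rfl⟩)
  have h2 : δ ≤ Real.exp (-(wt (EE F T) (out T) / (max k 1 : ℕ))) := hpr.trans h1
  have h3 := (Real.log_le_iff_le_exp hδ).2 h2
  have hpos : (0 : ℝ) < (max k 1 : ℕ) := by
    have : 0 < max k 1 := lt_of_lt_of_le Nat.one_pos (le_max_right _ _)
    exact_mod_cast this
  have h4 : wt (EE F T) (out T) / (max k 1 : ℕ) ≤ -Real.log δ := by linarith
  rw [div_le_iff₀ hpos] at h4
  linarith

end Pool.Agent.Helper27.RK
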