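import Pool.Agent.Helper92.RK.Defs

set_option autoImplicit false

/-!
# Swarm RK (MP_cba12a_lc), part GDI
-/

namespace Pool.Agent.Helper27.RK

open Finset Pool.Agent.Helper92.RK

section

variable {n : ℕ}

theorem card_vr {b : Tm n} (hb : Con b) : (vr b).card = b.card := by
  unfold vr
  exact card_image_of_injOn fun l hl l' hl' h => hb l hl l' hl' h

theorem card_vr_le (b : Tm n) : (vr b).card ≤ b.card := by
  unfold vr
  exact card_image_le

theorem mem_vr {b : Tm n} {i : Fin n} : i ∈ vr b ↔ ∃ l ∈ b, l.1 = i := by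
  unfold vr
  rw [mem_image]

theorem card_split {T b : Tm n} (hb : Con b) :
    (out T b).card + (vr b ∩ vr T).card = b.card := by
  classical
  have h1 : vr b ∩ vr T = (b.filter fun l => l.1 ∈ vr T).image Prod.fst := by
    ext i
    rw [mem_inter, mem_vr, mem_image]
    constructor
    · rintro ⟨⟨l, hl, rfl⟩, h⟩
      exact ⟨l, mem_filter.2 ⟨hl, h⟩, rfl⟩
    · rintro ⟨l, hl, rfl⟩
      rw [mem_filter] at hl
      exact ⟨⟨l, hl.1, rfl⟩, hl.2⟩
  rw [h1, card_image_of_injOn fun l hl l' hl' h =>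
    hb l (mem_filter.1 hl).1 l' (mem_filter.1 hl').1 h]
  unfold out
  rw [add_comm]
  exact card_filter_add_card_filter_not (s := b) (fun l => l.1 ∈ vr T)

/-- double counting -/
theorem sum_inter_le {k : ℕ} {F : Finset (Tm n)} {T : Tm n} (hk : Read k F) :
    ∑ b ∈ F, (vr b ∩ vr T).card ≤ k * T.card := by
  classical
  have h1 : ∀ b : Tm n, (vr b ∩ vr T).card = ∑ i ∈ vr T, if i ∈ vr b then 1 else 0 := by
    intro b
    rw [inter_comm, sum_boole, filter_mem_eq_inter]
    rfl
  rw [sum_congr rfl fun b _ => h1 b, sum_comm]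
  calc ∑ i ∈ vr T, ∑ b ∈ F, (if i ∈ vr b then 1 else 0)
      = ∑ i ∈ vr T, (F.filter fun b => i ∈ vr b).card := by
        refine sum_congr rfl fun i _ => ?_
        rw [sum_boole]
        rfl
    _ ≤ ∑ i ∈ vr T, k := sum_le_sum fun i _ => hk i
    _ = (vr T).card * k := by rw [sum_const, smul_eq_mul]
    _ ≤ T.card * k := Nat.mul_le_mul_right _ (card_vr_le T)
    _ = k * T.card := mul_comm _ _

/-- a family with large intersections is small -/
theorem card_mul_le {k m : ℕ} {F G : Finset (Tm n)} {T : Tm n} (hk : Read k F) (hG : G ⊆ F)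
    (hm : ∀ b ∈ G, m ≤ (vr b ∩ vr T).card) : G.card * m ≤ k * T.card := by
  calc G.card * m = ∑ b ∈ G, m := by rw [sum_const, smul_eq_mul]
    _ ≤ ∑ b ∈ G, (vr b ∩ vr T).card := sum_le_sum hm
    _ ≤ ∑ b ∈ F, (vr b ∩ vr T).card := sum_le_sum_of_subset hG
    _ ≤ k * T.card := sum_inter_le hk

/-- few short terms -/
theorem card_short {F G : Finset (Tm n)} {M : ℝ} {m : ℕ} (hw : w1 F ≤ M) (hG : G ⊆ F)
    (hm : ∀ b ∈ G, b.card ≤ m) : (G.card : ℝ) ≤ M * 2 ^ m := by
  have h1 : (G.card : ℝ) * (1 / 2 : ℝ) ^ m ≤ M := by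
    calc (G.card : ℝ) * (1 / 2 : ℝ) ^ m = ∑ b ∈ G, (1 / 2 : ℝ) ^ m := by
          rw [sum_const, nsmul_eq_mul]
      _ ≤ ∑ b ∈ G, (1 / 2 : ℝ) ^ b.card := sum_le_sum fun b hb =>
          pow_le_pow_of_le_one (by norm_num) (by norm_num) (hm b hb)
      _ ≤ ∑ b ∈ F, (1 / 2 : ℝ) ^ b.card :=
          sum_le_sum_of_subset_of_nonneg hG fun _ _ _ => by positivity
      _ ≤ M := hw
  have h2 : (1 / 2 : ℝ) ^ m * 2 ^ m = 1 := by
    rw [← mul_pow]; norm_num
  calc (G.card : ℝ) = (G.card : ℝ) * (1 / 2 : ℝ) ^ m * 2 ^ m := by rw [mul_assoc, h2, mul_one]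
    _ ≤ M * 2 ^ m := mul_le_mul_of_nonneg_right h1 (by positivity)

/-- if `b` is compatible with `T` off `i` and does not contain `i`, it has no conflict with `T` -/
theorem Cmp.mem {T b : Tm n} {i : Fin n} (h : Cmp T b i) (hi : i ∉ vr b) {l : Fin n × Bool}
    (hl : l ∈ b) (hT : l.1 ∈ vr T) : l ∈ T := by
  refine h l hl hT ?_
  rintro rfl
  exact hi (mem_vr.2 ⟨l, hl, rfl⟩)

end

/-- Part GDI. -/
theorem gdi : S_GDI := by
  classical
  intro k L M
  obtain ⟨N, hN⟩ := exists_nat_gt (M * 2 ^ (L + 4 * k))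
  refine ⟨2 * (2 * k * L + N + 2 * L + 1), ?_⟩
  intro n F T hk hCon hw hT hL
  by_contra hcon
  push Not at hcon
  -- choice of a bad term for every literal
  have hch : ∀ l : Fin n × Bool, ∃ b : Tm n, l ∈ T → (b ∈ F ∧ Cmp T b l.1 ∧ l ∉ b ∧
      (T.card ≤ b.card ∨ l.1 ∈ vr b) ∧ (out T b).card < L) := by
    intro l
    by_cases hl : l ∈ T
    · obtain ⟨b, hb, h1, h2, h3, h4⟩ := hcon l hl
      exact ⟨b, fun _ => ⟨hb, h1, h2, h3, h4⟩⟩
    · exact ⟨∅, fun h => absurd h hl⟩
  choose f hf using hch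
  set t := T.card with ht
  have hTpos : 0 < t := by omega
  have hkpos : 1 ≤ k := by
    obtain ⟨l, hl⟩ := card_pos.1 hTpos
    have h1 : 0 < (F.filter fun S => l.1 ∈ vr S).card :=
      card_pos.2 ⟨T, mem_filter.2 ⟨hT, mem_vr.2 ⟨l, hl, rfl⟩⟩⟩
    have := hk l.1
    omega
  have hConT := hCon T hT
  set A := T.filter fun l => l.1 ∉ vr (f l) with hA
  set B := T.filter fun l => l.1 ∈ vr (f l) with hB
  have hAB : B.card + A.card = t := card_filter_add_card_filter_not (s := T) _
  -- type (a)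
  have hAint : ∀ l ∈ A, t ≤ (vr (f l) ∩ vr T).card + L := by
    intro l hl
    rw [hA, mem_filter] at hl
    obtain ⟨h1, h2, h3, h4, h5⟩ := hf l hl.1
    have h6 : T.card ≤ (f l).card := h4.resolve_right hl.2
    have h7 := card_split (T := T) (hCon _ h1)
    omega
  have hA1 : (A.image f).card ≤ 2 * k := by
    have h1 : ∀ b ∈ A.image f, t - L ≤ (vr b ∩ vr T).card := by
      intro b hb
      obtain ⟨l, hl, rfl⟩ := mem_image.1 hb
      have := hAint l hl
      omega
    have h2 : A.image f ⊆ F := by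
      intro b hb
      obtain ⟨l, hl, rfl⟩ := mem_image.1 hb
      exact (hf l (mem_filter.1 hl).1).1
    have h3 := card_mul_le hk h2 h1
    have h4 : t ≤ 2 * (t - L) := by omega
    have h5 : (A.image f).card * t ≤ 2 * k * t := by
      calc (A.image f).card * t ≤ (A.image f).card * (2 * (t - L)) := Nat.mul_le_mul_left _ h4
        _ = 2 * ((A.image f).card * (t - L)) := by ring
        _ ≤ 2 * (k * t) := Nat.mul_le_mul_left _ h3
        _ = 2 * k * t := by ring
    exact Nat.le_of_mul_le_mul_right h5 hTpos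
  have hA2 : A.card ≤ 2 * k * L := by
    have h1 : A.card ≤ L * (A.image f).card := by
      refine card_le_mul_card_image A L ?_
      intro b hb
      obtain ⟨l0, hl0, rfl⟩ := mem_image.1 hb
      have h2 : (A.filter fun l => f l = f l0) ⊆ T.filter fun l => l.1 ∉ vr (f l0) := by
        intro l hl
        rw [mem_filter] at hl
        rw [mem_filter]
        have h3 := mem_filter.1 hl.1
        refine ⟨h3.1, ?_⟩
        rw [← hl.2]
        exact h3.2
      have h4 : (T.filter fun l => l.1 ∉ vr (f l0)).card ≤ L := by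
        have h5 : (vr T ∩ vr (f l0)).card + (T.filter fun l => l.1 ∉ vr (f l0)).card = t := by
          have := card_split (T := f l0) (b := T) hConT
          unfold out at this
          omega
        have h6 := hAint l0 hl0
        rw [inter_comm] at h6
        omega
      exact (card_le_card h2).trans h4
    calc A.card ≤ L * (A.image f).card := h1
      _ ≤ L * (2 * k) := Nat.mul_le_mul_left _ hA1
      _ = 2 * k * L := by ring
  -- type (b)
  have hinj : Set.InjOn f B := by
    intro l hl l' hl' hff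
    have hl := mem_filter.1 (Finset.mem_coe.1 hl)
    have hl' := mem_filter.1 (Finset.mem_coe.1 hl')
    obtain ⟨h1, h2, h3, h4, h5⟩ := hf l hl.1
    obtain ⟨h1', h2', h3', h4', h5'⟩ := hf l' hl'.1
    obtain ⟨m, hm, hm'⟩ := mem_vr.1 hl'.2
    by_contra hne
    have h6 : l'.1 ≠ l.1 := fun h => hne (hConT l hl.1 l' hl'.1 h.symm)
    have h7 : m ∈ T := by
      refine h2 m (hff ▸ hm) ?_ (by rw [hm']; exact h6)
      rw [hm']
      exact mem_vr.2 ⟨l', hl'.1, rfl⟩
    have h8 : m = l' := hConT m h7 l' hl'.1 hm'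
    exact h3' (h8 ▸ hm)
  have hBim : B.card = (B.image f).card := (card_image_of_injOn hinj).symm
  have hBF : B.image f ⊆ F := by
    intro b hb
    obtain ⟨l, hl, rfl⟩ := mem_image.1 hb
    exact (hf l (mem_filter.1 hl).1).1
  set B1 := (B.image f).filter fun b => L + 4 * k ≤ b.card with hB1
  set B2 := (B.image f).filter fun b => ¬ (L + 4 * k ≤ b.card) with hB2
  have hB12 : B1.card + B2.card = (B.image f).card := card_filter_add_card_filter_not (s := B.image f) _
  have hB1c : B1.card * (4 * k) ≤ k * t := by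
    refine card_mul_le hk ((filter_subset _ _).trans hBF) ?_
    intro b hb
    rw [hB1, mem_filter, mem_image] at hb
    obtain ⟨⟨l, hl, rfl⟩, hb2⟩ := hb
    obtain ⟨h1, h2, h3, h4, h5⟩ := hf l (mem_filter.1 hl).1
    have := card_split (T := T) (hCon _ h1)
    omega
  have hB1c' : 4 * B1.card ≤ t := by
    have : k * (4 * B1.card) ≤ k * t := by
      calc k * (4 * B1.card) = B1.card * (4 * k) := by ring
        _ ≤ k * t := hB1c
    exact Nat.le_of_mul_le_mul_left this hkpos
  have hB2c : B2.card ≤ N := by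
    have h1 : (B2.card : ℝ) ≤ M * 2 ^ (L + 4 * k) := by
      refine card_short hw ((filter_subset _ _).trans hBF) ?_
      intro b hb
      have := (mem_filter.1 hb).2
      omega
    have h2 : (B2.card : ℝ) < N := h1.trans_lt hN
    exact_mod_cast h2.le
  omega

end Pool.Agent.Helper27.RK
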