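import Pool.Agent.Helper27.RK.GDI

set_option autoImplicit false

/-!
# Swarm RK (MP_cba12a_lc), part WTB
-/

namespace Pool.Agent.Helper27.RK

open Finset Pool.Agent.Helper92.RK

theorem mul_half_pow (o t : ℕ) (h : t ≤ 2 * o) : (t : ℝ) * (1 / 2 : ℝ) ^ o ≤ 1 := by
  have h1 : (o : ℝ) * 2 ≤ 2 ^ o := by
    have : o * 2 ≤ 2 ^ o := by
      rcases o with _ | o
      · simp
      · have := Nat.lt_two_pow_self (n := o)
        calc (o + 1) * 2 ≤ 2 ^ o * 2 := Nat.mul_le_mul_right _ this
          _ = 2 ^ (o + 1) := by ring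
    exact_mod_cast this
  have h2 : (t : ℝ) ≤ 2 * o := by exact_mod_cast h
  have h3 : (0 : ℝ) < 2 ^ o := by positivity
  rw [one_div, inv_pow, ← div_eq_mul_inv, div_le_one h3]
  linarith

/-- Part WTB. -/
theorem wtb : S_WTB := by
  classical
  intro k M M1
  refine ⟨max 0 M1 + |M| + 6 * k + 1, by positivity, ?_⟩
  intro n F T l hk hCon hw hT hl hE
  have hConT := hCon T hT
  have hw' : w1 F ≤ |M| := hw.trans (le_abs_self M)
  set t := T.card with ht
  have htpos : 0 < t := card_pos.2 ⟨l, hl⟩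
  have hnn : ∀ b : Tm n, (0 : ℝ) ≤ (1 / 2 : ℝ) ^ (out T b).card := fun b => by positivity
  have hle1 : ∀ b : Tm n, (1 / 2 : ℝ) ^ (out T b).card ≤ 1 := fun b =>
    pow_le_one₀ (by norm_num) (by norm_num)
  -- the five families
  set G1 := EE F T with hG1
  set G2 := F.filter fun b => l.1 ∈ vr b with hG2
  set G3 := F.filter fun b => vr b ∩ vr T = ∅ with hG3
  set G4 := F.filter fun b => (vr b ∩ vr T).Nonempty ∧ t ≤ 2 * (out T b).card with hG4
  set G5 := F.filter fun b => t ≤ 2 * (vr b ∩ vr T).card with hG5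
  have hsub : BB F T l ⊆ G1 ∪ (G2 ∪ (G3 ∪ (G4 ∪ G5))) := by
    intro b hb
    unfold BB at hb
    rw [mem_filter] at hb
    obtain ⟨hbF, hC, hb2⟩ := hb
    have hCb := hCon b hbF
    simp only [mem_union]
    by_cases h2 : l.1 ∈ vr b
    · exact Or.inr (Or.inl (mem_filter.2 ⟨hbF, h2⟩))
    · by_cases h1 : b.card < t
      · left
        rw [hG1]
        unfold EE
        rw [mem_filter]
        refine ⟨hbF, h1, ?_⟩
        intro x hx y hy hxy
        rcases mem_union.1 hx with hx | hx <;> rcases mem_union.1 hy with hy | hy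
        · exact hCb x hx y hy hxy
        · have : x ∈ T := Cmp.mem hC h2 hx (mem_vr.2 ⟨y, hy, hxy.symm⟩)
          exact hConT x this y hy hxy
        · have : y ∈ T := Cmp.mem hC h2 hy (mem_vr.2 ⟨x, hx, hxy⟩)
          exact hConT x hx y this hxy
        · exact hConT x hx y hy hxy
      · push Not at h1
        right; right
        have h3 := card_split (T := T) hCb
        rcases (vr b ∩ vr T).eq_empty_or_nonempty with h0 | h0
        · left
          exact mem_filter.2 ⟨hbF, h0⟩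
        · right
          by_cases h5 : t ≤ 2 * (vr b ∩ vr T).card
          · right
            exact mem_filter.2 ⟨hbF, h5⟩
          · left
            refine mem_filter.2 ⟨hbF, h0, ?_⟩
            omega
  have hs : ∀ G G' : Finset (Tm n), wt (G ∪ G') (out T) ≤ wt G (out T) + wt G' (out T) := by
    intro G G'
    unfold wt
    rw [← sum_union_inter]
    exact le_add_of_nonneg_right (sum_nonneg fun b _ => hnn b)
  have hcard : ∀ G : Finset (Tm n), wt G (out T) ≤ (G.card : ℝ) := by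
    intro G
    unfold wt
    calc ∑ b ∈ G, (1 / 2 : ℝ) ^ (out T b).card ≤ ∑ b ∈ G, (1 : ℝ) := sum_le_sum fun b _ => hle1 b
      _ = (G.card : ℝ) := by simp
  have w2 : wt G2 (out T) ≤ k := by
    refine (hcard _).trans ?_
    exact_mod_cast hk l.1
  have w3 : wt G3 (out T) ≤ |M| := by
    refine le_trans ?_ hw'
    unfold wt w1
    calc ∑ b ∈ G3, (1 / 2 : ℝ) ^ (out T b).card = ∑ b ∈ G3, (1 / 2 : ℝ) ^ b.card := by
          refine sum_congr rfl fun b hb => ?_
          have h1 := mem_filter.1 hb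
          have h2 := card_split (T := T) (hCon b h1.1)
          rw [h1.2, card_empty, add_zero] at h2
          rw [h2]
      _ ≤ ∑ b ∈ F, (1 / 2 : ℝ) ^ b.card :=
          sum_le_sum_of_subset_of_nonneg (filter_subset _ _) fun _ _ _ => by positivity
  have w4 : wt G4 (out T) ≤ k := by
    have h1 : G4.card * 1 ≤ k * t := card_mul_le hk (filter_subset _ _) fun b hb =>
      card_pos.2 (mem_filter.1 hb).2.1
    have h2 : (t : ℝ) * wt G4 (out T) ≤ t * k := by
      unfold wt
      rw [mul_sum]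
      calc ∑ b ∈ G4, (t : ℝ) * (1 / 2 : ℝ) ^ (out T b).card ≤ ∑ b ∈ G4, (1 : ℝ) :=
            sum_le_sum fun b hb => mul_half_pow _ _ (mem_filter.1 hb).2.2
        _ = (G4.card : ℝ) := by simp
        _ ≤ ((k * t : ℕ) : ℝ) := by exact_mod_cast (by omega : G4.card ≤ k * t)
        _ = t * k := by push_cast; ring
    exact le_of_mul_le_mul_left h2 (by exact_mod_cast htpos)
  have w5 : wt G5 (out T) ≤ 2 * k := by
    refine (hcard _).trans ?_
    have h1 : G5.card * t ≤ 2 * k * t := by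
      calc G5.card * t = ∑ b ∈ G5, t := by rw [sum_const, smul_eq_mul]
        _ ≤ ∑ b ∈ G5, 2 * (vr b ∩ vr T).card := sum_le_sum fun b hb => (mem_filter.1 hb).2
        _ = 2 * ∑ b ∈ G5, (vr b ∩ vr T).card := by rw [mul_sum]
        _ ≤ 2 * ∑ b ∈ F, (vr b ∩ vr T).card :=
          Nat.mul_le_mul_left _ (sum_le_sum_of_subset (filter_subset _ _))
        _ ≤ 2 * (k * t) := Nat.mul_le_mul_left _ (sum_inter_le hk)
        _ = 2 * k * t := by ring
    have h2 : G5.card ≤ 2 * k := Nat.le_of_mul_le_mul_right h1 htpos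
    exact_mod_cast h2
  have hmain : wt (BB F T l) (out T) ≤ wt (G1 ∪ (G2 ∪ (G3 ∪ (G4 ∪ G5)))) (out T) := by
    unfold wt
    exact sum_le_sum_of_subset_of_nonneg hsub fun _ _ _ => by positivity
  have a1 := hs G1 (G2 ∪ (G3 ∪ (G4 ∪ G5)))
  have a2 := hs G2 (G3 ∪ (G4 ∪ G5))
  have a3 := hs G3 (G4 ∪ G5)
  have a4 := hs G4 G5
  have a5 : M1 ≤ max 0 M1 := le_max_right _ _
  have hk0 : (0 : ℝ) ≤ k := Nat.cast_nonneg k
  linarith

end Pool.Agent.Helper27.RK
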